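import Mathlib

/-!
# MP_793dac_co: flattened Stirling permutations with exactly three runs
-/

set_option autoImplicit false

namespace Pool.Agent.Results.MP_793dac_co.ThreeRuns

open Finset

/-- `w` is a Stirling permutation of order `n`: a word in which each of the letters `1, …, n` occurs
exactly twice and no other letter occurs, and every letter `b` strictly between the two copies of a
letter `a` (that is, `[a, b, a]` is a subsequence of `w`) exceeds `a`. -/
def IsStirling (n : ℕ) (w : List ℕ) : Prop :=
  (∀ i : ℕ, w.count i = if 1 ≤ i ∧ i ≤ n then 2 else 0) ∧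
    ∀ a b : ℕ, List.Sublist [a, b, a] w → a < b

/-- The leading values of the runs that start inside `t`, when the word `t` follows the letter `a`: a
new run starts exactly at a descent. -/
def leadsAux : ℕ → List ℕ → List ℕ
  | _, [] => []
  | a, b :: t => if b < a then b :: leadsAux b t else leadsAux b t

/-- The leading values of the runs of a word, from left to right. -/
def leads : List ℕ → List ℕ
  | [] => []
  | a :: t => a :: leadsAux a t

/-- The set of the flattened Stirling permutations of order `n` with exactly `r` runs. -/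
def flatRuns (r n : ℕ) : Set (List ℕ) :=
  {w | IsStirling n w ∧ (leads w).Pairwise (· ≤ ·) ∧ (leads w).length = r}

/-- The double sum `∑_{k=s}^{n-1} C(n-1,k) ∑_{j=2}^{n-1-k} C(n-1-k,j)`. -/
def dbl (s n : ℕ) : ℕ :=
  ∑ k ∈ Icc s (n - 1), (n - 1).choose k * ∑ j ∈ Icc 2 (n - 1 - k), (n - 1 - k).choose j

/-- The single sum `∑_{k=3}^{n-1} (2^{k-1} - 2) C(n-1,k)`. -/
def sgl (n : ℕ) : ℕ := ∑ k ∈ Icc 3 (n - 1), (2 ^ (k - 1) - 2) * (n - 1).choose k

/-! ### Insertion of the largest letter -/

/-- All words obtained from `w` by inserting `N N` somewhere. -/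
def insAll (N : ℕ) : List ℕ → List (List ℕ)
  | [] => [[N, N]]
  | a :: t => (N :: N :: a :: t) :: (insAll N t).map (a :: ·)

/-- The list of all Stirling permutations of order `n`. -/
def Q : ℕ → List (List ℕ)
  | 0 => [[]]
  | n + 1 => (Q n).flatMap (insAll (n + 1))

lemma mem_insAll {N : ℕ} {w x : List ℕ} :
    x ∈ insAll N w ↔ ∃ u v, w = u ++ v ∧ x = u ++ N :: N :: v := by
  induction w generalizing x with
  | nil =>
    simp only [insAll, List.mem_singleton]
    constructor
    · rintro rfl
      exact ⟨[], [], rfl, rfl⟩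
    · rintro ⟨u, v, h, rfl⟩
      have := List.append_eq_nil_iff.1 h.symm
      rw [this.1, this.2]; rfl
  | cons a t ih =>
    simp only [insAll, List.mem_cons, List.mem_map]
    constructor
    · rintro (rfl | ⟨y, hy, rfl⟩)
      · exact ⟨[], a :: t, rfl, rfl⟩
      · obtain ⟨u, v, rfl, rfl⟩ := ih.1 hy
        exact ⟨a :: u, v, rfl, rfl⟩
    · rintro ⟨u, v, h, rfl⟩
      cases u with
      | nil =>
        left
        simp only [List.nil_append] at h ⊢
        rw [h]
      | cons b u =>
        right
        simp only [List.cons_append, List.cons.injEq] at h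
        obtain ⟨rfl, rfl⟩ := h
        exact ⟨u ++ N :: N :: v, ih.2 ⟨u, v, rfl, rfl⟩, rfl⟩

lemma nodup_insAll {N : ℕ} {w : List ℕ} (h : N ∉ w) : (insAll N w).Nodup := by
  induction w with
  | nil => simp [insAll]
  | cons a t ih =>
    simp only [List.mem_cons, not_or] at h
    rw [insAll, List.nodup_cons]
    refine ⟨?_, (ih h.2).map (fun x y hxy => (List.cons.inj hxy).2)⟩
    simp only [List.mem_map, not_exists, not_and]
    intro x _ hx
    exact h.1 (List.cons.inj hx).1.symm

lemma filter_of_mem {N : ℕ} {w x : List ℕ} (h : N ∉ w) (hx : x ∈ insAll N w) :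
    x.filter (fun a => decide (a ≠ N)) = w := by
  obtain ⟨u, v, rfl, rfl⟩ := mem_insAll.1 hx
  simp only [List.mem_append, not_or] at h
  rw [List.filter_append, List.filter_cons_of_neg (by simp), List.filter_cons_of_neg (by simp)]
  congr 1
  · rw [List.filter_eq_self]
    intro a ha
    simp only [decide_eq_true_eq]
    rintro rfl
    exact h.1 ha
  · rw [List.filter_eq_self]
    intro a ha
    simp only [decide_eq_true_eq]
    rintro rfl
    exact h.2 ha

lemma mem_iff {n : ℕ} {w : List ℕ} (h : IsStirling n w) {a : ℕ} : a ∈ w ↔ 1 ≤ a ∧ a ≤ n := by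
  rw [← List.count_pos_iff, h.1 a]
  split_ifs with hh <;> simp [hh]

lemma isStirling_succ {n : ℕ} {x : List ℕ} :
    IsStirling (n + 1) x ↔ ∃ w, IsStirling n w ∧ x ∈ insAll (n + 1) w := by
  constructor
  · intro h
    have hN : n + 1 ∈ x := (mem_iff h).2 ⟨by omega, le_rfl⟩
    obtain ⟨u, v', hx, hu⟩ := List.eq_append_cons_of_mem hN
    have hc := h.1 (n + 1)
    rw [if_pos ⟨by omega, le_rfl⟩, hx, List.count_append, List.count_cons_self,
      List.count_eq_zero_of_not_mem hu] at hc
    have hN' : n + 1 ∈ v' := by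
      rw [← List.count_pos_iff]; omega
    obtain ⟨m, v, hv, hm⟩ := List.eq_append_cons_of_mem hN'
    have hm0 : m = [] := by
      cases m with
      | nil => rfl
      | cons b m =>
        exfalso
        have h1 := h.2 (n + 1) b (by
          rw [hx, hv]
          refine List.Sublist.trans ?_ (List.sublist_append_right _ _)
          refine List.Sublist.cons_cons _ ?_
          refine List.Sublist.cons_cons _ ?_
          refine List.Sublist.trans ?_ (List.sublist_append_right _ _)
          exact List.Sublist.cons_cons _ (List.nil_sublist _))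
        have h2 : b ∈ x := by rw [hx, hv]; simp
        have h3 := ((mem_iff h).1 h2).2
        omega
    subst hm0
    rw [List.nil_append] at hv
    subst hv
    subst hx
    refine ⟨u ++ v, ⟨?_, ?_⟩, mem_insAll.2 ⟨u, v, rfl, rfl⟩⟩
    · intro i
      have hi := h.1 i
      rw [List.count_append, List.count_cons, List.count_cons] at hi
      rw [List.count_append]
      by_cases e : i = n + 1
      · subst e
        simp only [BEq.rfl, if_true] at hi
        rw [if_pos ⟨by omega, le_rfl⟩] at hi
        rw [if_neg (by omega)]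
        omega
      · have e' : ((n + 1) == i) = false := by
          rw [beq_eq_false_iff_ne]; exact fun h => e h.symm
        rw [e'] at hi
        simp only [Bool.false_eq_true, if_false, Nat.add_zero] at hi
        rw [hi]
        by_cases h1 : 1 ≤ i ∧ i ≤ n
        · rw [if_pos h1, if_pos (by omega)]
        · rw [if_neg h1, if_neg (by omega)]
    · intro a b hab
      apply h.2 a b
      refine hab.trans ?_
      refine List.Sublist.append (List.Sublist.refl _) ?_
      exact (List.sublist_cons_self _ _).trans (List.sublist_cons_self _ _)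
  · rintro ⟨w, hw, hx⟩
    have hnw : n + 1 ∉ w := by
      rw [mem_iff hw]; omega
    have hfil := filter_of_mem hnw hx
    obtain ⟨u, v, rfl, rfl⟩ := mem_insAll.1 hx
    have hu : n + 1 ∉ u := fun h => hnw (List.mem_append_left _ h)
    have hv : n + 1 ∉ v := fun h => hnw (List.mem_append_right _ h)
    refine ⟨?_, ?_⟩
    · intro i
      have hi := hw.1 i
      rw [List.count_append] at hi
      rw [List.count_append, List.count_cons, List.count_cons]
      by_cases e : i = n + 1
      · subst e
        simp only [BEq.rfl, if_true]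
        rw [if_pos ⟨by omega, le_rfl⟩]
        rw [if_neg (by omega)] at hi
        omega
      · have e' : ((n + 1) == i) = false := by
          rw [beq_eq_false_iff_ne]; exact fun h => e h.symm
        rw [e']
        simp only [Bool.false_eq_true, if_false, Nat.add_zero]
        rw [hi]
        by_cases h1 : 1 ≤ i ∧ i ≤ n
        · rw [if_pos h1, if_pos (by omega)]
        · rw [if_neg h1, if_neg (by omega)]
    · intro a b hab
      have hmem : ∀ c ∈ u ++ (n + 1) :: (n + 1) :: v, c ≤ n + 1 := by
        intro c hc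
        simp only [List.mem_append, List.mem_cons] at hc
        rcases hc with hc | rfl | rfl | hc
        · have := (mem_iff hw).1 (List.mem_append_left _ hc); omega
        · exact le_rfl
        · exact le_rfl
        · have := (mem_iff hw).1 (List.mem_append_right _ hc); omega
      by_cases ha : a = n + 1
      · exfalso
        subst ha
        obtain ⟨l1, l2, hl, h1, h2⟩ := List.sublist_append_iff.1 hab
        cases l1 with
        | cons c l1 =>
          simp only [List.cons_append, List.cons.injEq] at hl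
          exact hu (h1.subset (by rw [hl.1]; simp))
        | nil =>
          rw [List.nil_append] at hl
          subst hl
          rw [List.cons_sublist_cons] at h2
          rcases List.cons_sublist_iff.1 h2 with h3
          have h4 : List.Sublist [n + 1] v := by
            cases h2 with
            | cons _ h5 =>
              exact (List.sublist_cons_self _ _).trans h5
            | cons_cons _ h5 => exact h5
          exact hv (h4.subset (by simp))
      · by_cases hb : b = n + 1
        · subst hb
          have := hmem a (hab.subset (by simp))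
          omega
        · apply hw.2 a b
          rw [← hfil]
          have := hab.filter (fun a => decide (a ≠ n + 1))
          rwa [List.filter_cons_of_pos (by simpa using ha), List.filter_cons_of_pos (by simpa using hb),
            List.filter_cons_of_pos (by simpa using ha), List.filter_nil] at this

lemma isStirling_zero {x : List ℕ} : IsStirling 0 x ↔ x = [] := by
  constructor
  · intro h
    rw [List.eq_nil_iff_forall_not_mem]
    intro a ha
    have := (mem_iff h).1 ha
    omega
  · rintro rfl
    refine ⟨?_, ?_⟩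
    · intro i
      rw [if_neg (by omega)]; rfl
    · intro a b h
      exact absurd h (by simp)

lemma mem_Q {n : ℕ} {x : List ℕ} : x ∈ Q n ↔ IsStirling n x := by
  induction n generalizing x with
  | zero => rw [isStirling_zero]; simp [Q]
  | succ n ih =>
    rw [isStirling_succ, Q, List.mem_flatMap]
    constructor
    · rintro ⟨w, hw, hx⟩; exact ⟨w, ih.1 hw, hx⟩
    · rintro ⟨w, hw, hx⟩; exact ⟨w, ih.2 hw, hx⟩

lemma nodup_Q (n : ℕ) : (Q n).Nodup := by
  induction n with
  | zero => simp [Q]
  | succ n ih =>
    rw [Q, List.nodup_flatMap]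
    have hn : ∀ w ∈ Q n, n + 1 ∉ w := by
      intro w hw h
      have := (mem_iff (mem_Q.1 hw)).1 h
      omega
    refine ⟨fun w hw => nodup_insAll (hn w hw), ?_⟩
    refine List.Pairwise.imp_of_mem ?_ ih
    intro w w' hw hw' hne x hx hx'
    apply hne
    rw [← filter_of_mem (hn w hw) hx, filter_of_mem (hn w' hw') hx']

lemma length_Q {n : ℕ} {w : List ℕ} (h : w ∈ Q n) : w.length = 2 * n := by
  induction n generalizing w with
  | zero => simp [Q] at h; simp [h]
  | succ n ih =>
    rw [Q, List.mem_flatMap] at h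
    obtain ⟨x, hx, hw⟩ := h
    obtain ⟨u, v, rfl, rfl⟩ := mem_insAll.1 hw
    have := ih hx
    simp only [List.length_append, List.length_cons] at this ⊢
    omega

lemma length_insAll {N : ℕ} {t x : List ℕ} (h : x ∈ insAll N t) : x.length = t.length + 2 := by
  obtain ⟨u, v, rfl, rfl⟩ := mem_insAll.1 h
  simp only [List.length_append, List.length_cons]
  omega

/-! ### The statistics -/

def F0 : ℕ → List ℕ → ℕ
  | _, [] => 1
  | a, b :: t => if b < a then 0 else F0 b t

def F1 : ℕ → ℕ → List ℕ → ℕ
  | _, _, [] => 0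
  | l, a, b :: t => if b < a then (if l ≤ b then F0 b t else 0) else F1 l b t

def F2 : ℕ → ℕ → List ℕ → ℕ
  | _, _, [] => 0
  | l, a, b :: t => if b < a then (if l ≤ b then F1 b b t else 0) else F2 l b t

def G : ℕ → ℕ → List ℕ → ℕ
  | _, _, [] => 0
  | l, a, b :: t => if b < a then (if l ≤ b then F0 b t * t.length else 0) else F1 b b t + G l b t

lemma F0_eq (a : ℕ) (t : List ℕ) : F0 a t = if (leadsAux a t).length = 0 then 1 else 0 := by
  induction t generalizing a with
  | nil => simp [F0, leadsAux]
  | cons b t ih =>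
    by_cases h : b < a
    · simp [F0, leadsAux, h]
    · simp only [F0, leadsAux, h, if_false]; exact ih b

lemma pairwise_cons_cons {l b : ℕ} {L : List ℕ} :
    (l :: b :: L).Pairwise (· ≤ ·) ↔ l ≤ b ∧ (b :: L).Pairwise (· ≤ ·) := by
  constructor
  · intro h
    rw [List.pairwise_cons] at h
    exact ⟨h.1 b (by simp), h.2⟩
  · rintro ⟨h1, h2⟩
    rw [List.pairwise_cons]
    refine ⟨?_, h2⟩
    intro c hc
    rw [List.mem_cons] at hc
    rcases hc with rfl | hc
    · exact h1
    · exact h1.trans ((List.pairwise_cons.1 h2).1 c hc)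

lemma F1_eq (l a : ℕ) (t : List ℕ) : F1 l a t =
    if (l :: leadsAux a t).Pairwise (· ≤ ·) ∧ (leadsAux a t).length = 1 then 1 else 0 := by
  induction t generalizing a with
  | nil => simp [F1, leadsAux]
  | cons b t ih =>
    by_cases h : b < a
    · simp only [F1, leadsAux, h, if_true, pairwise_cons_cons, F0_eq]
      by_cases h1 : l ≤ b
      · by_cases h2 : leadsAux b t = []
        · simp [h1, h2]
        · have : ¬ (leadsAux b t).length = 0 := by simpa using h2
          rw [if_pos h1, if_neg this, if_neg]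
          rintro ⟨_, h3⟩
          rw [List.length_cons] at h3
          omega
      · simp [h1]
    · simp only [F1, leadsAux, h, if_false]; exact ih b

lemma F2_eq (l a : ℕ) (t : List ℕ) : F2 l a t =
    if (l :: leadsAux a t).Pairwise (· ≤ ·) ∧ (leadsAux a t).length = 2 then 1 else 0 := by
  induction t generalizing a with
  | nil => simp [F2, leadsAux]
  | cons b t ih =>
    by_cases h : b < a
    · simp only [F2, leadsAux, h, if_true, pairwise_cons_cons, F1_eq]
      by_cases h1 : l ≤ b
      · simp [h1]
      · simp [h1]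
    · simp only [F2, leadsAux, h, if_false]; exact ih b

lemma sum_F0 {N : ℕ} (a : ℕ) (t : List ℕ) (ha : a ≤ N) (ht : ∀ b ∈ t, b < N) :
    ((insAll N t).map (F0 a)).sum = F0 a t := by
  induction t generalizing a with
  | nil => simp [insAll, F0, ha]
  | cons b t ih =>
    have hb : b < N := ht b (by simp)
    have ih' := ih b hb.le (fun c hc => ht c (by simp [hc]))
    simp only [insAll, List.map_cons, List.map_map, List.sum_cons]
    have e1 : F0 a (N :: N :: b :: t) = 0 := by
      simp [F0, hb]
    rw [e1, zero_add]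
    by_cases h : b < a
    · have : (F0 a ∘ fun x => b :: x) = fun _ => 0 := by
        funext x; simp [F0, h]
      rw [this]; simp [F0, h]
    · have : (F0 a ∘ fun x => b :: x) = F0 b := by
        funext x; simp [F0, h]
      rw [this, ih']; simp [F0, h]

lemma sum_F1 {N : ℕ} (l a : ℕ) (t : List ℕ) (hl : l ≤ a) (ha : a ≤ N) (ht : ∀ b ∈ t, b < N) :
    ((insAll N t).map (F1 l a)).sum = 2 * F1 l a t + F0 a t * t.length := by
  induction t generalizing a with
  | nil => simp [insAll, F1, not_lt.2 ha]
  | cons b t ih =>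
    have hb : b < N := ht b (by simp)
    have htt : ∀ c ∈ t, c < N := fun c hc => ht c (by simp [hc])
    simp only [insAll, List.map_cons, List.map_map, List.sum_cons]
    have e1 : F1 l a (N :: N :: b :: t) = if l ≤ b then F0 b t else 0 := by
      simp [F1, hb, not_lt.2 ha]
    rw [e1]
    by_cases h : b < a
    · by_cases h1 : l ≤ b
      · have : (F1 l a ∘ fun x => b :: x) = F0 b := by
          funext x; simp [F1, h, h1]
        rw [this, sum_F0 b t hb.le htt]; simp only [F1, F0, h, h1, if_true]; ring
      · have : (F1 l a ∘ fun x => b :: x) = fun _ => 0 := by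
          funext x; simp [F1, h, h1]
        rw [this]; simp [F1, F0, h, h1]
    · have hlb : l ≤ b := hl.trans (not_lt.1 h)
      have : (F1 l a ∘ fun x => b :: x) = F1 l b := by
        funext x; simp [F1, h]
      rw [this, ih b hlb hb.le htt]; simp only [F1, F0, h, hlb, if_true, if_false, List.length_cons]
      ring

lemma sum_F2 {N : ℕ} (l a : ℕ) (t : List ℕ) (hl : l ≤ a) (ha : a ≤ N) (ht : ∀ b ∈ t, b < N) :
    ((insAll N t).map (F2 l a)).sum = 3 * F2 l a t + G l a t := by
  induction t generalizing a with
  | nil => simp [insAll, F2, G, not_lt.2 ha]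
  | cons b t ih =>
    have hb : b < N := ht b (by simp)
    have htt : ∀ c ∈ t, c < N := fun c hc => ht c (by simp [hc])
    simp only [insAll, List.map_cons, List.map_map, List.sum_cons]
    have e1 : F2 l a (N :: N :: b :: t) = if l ≤ b then F1 b b t else 0 := by
      simp [F2, hb, not_lt.2 ha]
    rw [e1]
    by_cases h : b < a
    · by_cases h1 : l ≤ b
      · have : (F2 l a ∘ fun x => b :: x) = F1 b b := by
          funext x; simp [F2, h, h1]
        rw [this, sum_F1 b b t le_rfl hb.le htt]; simp only [F2, G, h, h1, if_true]; ring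
      · have : (F2 l a ∘ fun x => b :: x) = fun _ => 0 := by
          funext x; simp [F2, h, h1]
        rw [this]; simp [F2, G, h, h1]
    · have hlb : l ≤ b := hl.trans (not_lt.1 h)
      have : (F2 l a ∘ fun x => b :: x) = F2 l b := by
        funext x; simp [F2, h]
      rw [this, ih b hlb hb.le htt]; simp only [F2, G, h, hlb, if_true, if_false]
      ring

lemma sum_map_const_mul (L : List (List ℕ)) (f : List ℕ → ℕ) (c : ℕ) :
    (L.map (fun x => f x * c)).sum = (L.map f).sum * c := by
  induction L with
  | nil => simp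
  | cons x L ih => simp only [List.map_cons, List.sum_cons, ih]; ring

lemma sum_map_add' (L : List (List ℕ)) (f g : List ℕ → ℕ) :
    (L.map (fun x => f x + g x)).sum = (L.map f).sum + (L.map g).sum := by
  induction L with
  | nil => simp
  | cons x L ih => simp only [List.map_cons, List.sum_cons, ih]; ring

lemma sum_map_congr' {L : List (List ℕ)} {f g : List ℕ → ℕ} (h : ∀ x ∈ L, f x = g x) :
    (L.map f).sum = (L.map g).sum := by
  rw [List.map_congr_left h]

lemma sum_G {N : ℕ} (l a : ℕ) (t : List ℕ) (hl : l ≤ a) (ha : a ≤ N) (ht : ∀ b ∈ t, b < N) :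
    ((insAll N t).map (G l a)).sum =
      2 * G l a t + 2 * F1 l a t + F0 a t * (t.length * (t.length - 1)) := by
  induction t generalizing a with
  | nil => simp [insAll, F1, G, not_lt.2 ha]
  | cons b t ih =>
    have hb : b < N := ht b (by simp)
    have htt : ∀ c ∈ t, c < N := fun c hc => ht c (by simp [hc])
    simp only [insAll, List.map_cons, List.map_map, List.sum_cons]
    have e1 : G l a (N :: N :: b :: t) = if l ≤ b then F0 b t * t.length else 0 := by
      simp [G, F1, hb, not_lt.2 ha, not_le.2 hb]
    rw [e1]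
    by_cases h : b < a
    · by_cases h1 : l ≤ b
      · have : ((insAll N t).map (G l a ∘ fun x => b :: x)).sum =
            ((insAll N t).map (fun x => F0 b x * (t.length + 2))).sum := by
          apply sum_map_congr'
          intro x hx
          simp [G, h, h1, length_insAll hx]
        rw [this, sum_map_const_mul, sum_F0 b t hb.le htt]
        simp only [G, F1, F0, h, h1, if_true]; ring
      · have : (G l a ∘ fun x => b :: x) = fun _ => 0 := by
          funext x; simp [G, h, h1]
        rw [this]; simp [G, F1, F0, h, h1]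
    · have hlb : l ≤ b := hl.trans (not_lt.1 h)
      have : (G l a ∘ fun x => b :: x) = fun x => F1 b b x + G l b x := by
        funext x; simp [G, h]
      rw [this, sum_map_add', ih b hlb hb.le htt, sum_F1 b b t le_rfl hb.le htt]
      simp only [G, F1, F0, h, hlb, if_true, if_false, List.length_cons, Nat.add_sub_cancel]
      rcases Nat.eq_zero_or_pos t.length with h0 | h0
      · simp only [h0]; ring
      · obtain ⟨m, hm⟩ : ∃ m, t.length = m + 1 := ⟨t.length - 1, by omega⟩
        simp only [hm, Nat.add_sub_cancel]; ring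

/-! ### The recursion -/

def T (f : ℕ → ℕ → List ℕ → ℕ) : List ℕ → ℕ
  | [] => 0
  | a :: t => f a a t

def tot (f : ℕ → ℕ → List ℕ → ℕ) (n : ℕ) : ℕ := ((Q n).map (T f)).sum

lemma sum_flatMap' (L : List (List ℕ)) (e : List ℕ → List (List ℕ)) (f : List ℕ → ℕ) :
    ((L.flatMap e).map f).sum = (L.map (fun w => ((e w).map f).sum)).sum := by
  induction L with
  | nil => simp
  | cons x L ih => simp only [List.flatMap_cons, List.map_append, List.sum_append, List.map_cons,
      List.sum_cons, ih]

lemma tot_succ (f : ℕ → ℕ → List ℕ → ℕ) (g : ℕ → ℕ → List ℕ → ℕ) (n : ℕ) (hn : 1 ≤ n)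
    (h0 : ∀ a t, a < n + 1 → f (n + 1) (n + 1) ((n + 1) :: a :: t) = 0)
    (hg : ∀ a t, a < n + 1 → (∀ b ∈ t, b < n + 1) → t.length = 2 * n - 1 →
      ((insAll (n + 1) t).map (f a a)).sum = g a a t) :
    tot f (n + 1) = tot g n := by
  rw [tot, Q, sum_flatMap', tot]
  apply sum_map_congr'
  intro w hw
  have hlen := length_Q hw
  have hmem : ∀ c ∈ w, c < n + 1 := by
    intro c hc
    have := (mem_iff (mem_Q.1 hw)).1 hc
    omega
  cases w with
  | nil => simp at hlen; omega
  | cons a t =>
    have ha : a < n + 1 := hmem a (by simp)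
    simp only [insAll, List.map_cons, List.map_map, List.sum_cons]
    have e1 : T f ((n + 1) :: (n + 1) :: a :: t) = 0 := h0 a t ha
    have e2 : (T f ∘ fun x => a :: x) = f a a := by
      funext x; rfl
    rw [e1, e2, zero_add, hg a t ha (fun b hb => hmem b (by simp [hb]))
      (by simp at hlen; omega)]
    rfl

lemma tot_F0 (n : ℕ) : tot (fun _ => F0) (n + 1) = 1 := by
  induction n with
  | zero => decide
  | succ n ih =>
    rw [tot_succ (fun _ => F0) (fun _ => F0) (n + 1) (by omega)]
    · exact ih
    · intro a t ha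
      simp [F0, ha]
    · intro a t ha ht _
      exact sum_F0 a t ha.le ht

lemma tot_add (f g : ℕ → ℕ → List ℕ → ℕ) (n : ℕ) :
    tot (fun l a t => f l a t + g l a t) n = tot f n + tot g n := by
  rw [tot, tot, tot, ← sum_map_add']
  apply sum_map_congr'
  intro x _
  cases x <;> rfl

lemma tot_mul (f : ℕ → ℕ → List ℕ → ℕ) (c n : ℕ) :
    tot (fun l a t => f l a t * c) n = tot f n * c := by
  rw [tot, tot, ← sum_map_const_mul]
  apply sum_map_congr'
  intro x _
  cases x
  · simp [T]
  · rfl

lemma tot_F1 (n : ℕ) : tot F1 (n + 1) + 2 * (n + 1) + 1 = 3 * 2 ^ n := by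
  induction n with
  | zero => decide
  | succ n ih =>
    have h : tot F1 (n + 1 + 1) =
        tot (fun l a t => F1 l a t * 2 + F0 a t * (2 * (n + 1) - 1)) (n + 1) := by
      apply tot_succ F1 _ (n + 1) (by omega)
      · intro a t ha
        simp [F1, ha, not_le.2 ha]
      · intro a t ha ht hlen
        rw [sum_F1 a a t le_rfl ha.le ht, hlen]; ring
    rw [h, tot_add, tot_mul F1, tot_mul (fun _ => F0), tot_F0]
    have e : 2 * (n + 1) - 1 = 2 * n + 1 := by omega
    rw [e, pow_succ]
    omega

lemma tot_G (m : ℕ) : tot G (m + 1) + 4 * m ^ 2 + 6 * m + 4 = (3 * m + 4) * 2 ^ m := by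
  induction m with
  | zero => decide
  | succ m ih =>
    have h : tot G (m + 1 + 1) = tot (fun l a t => (G l a t * 2 + F1 l a t * 2) +
        F0 a t * ((2 * (m + 1) - 1) * (2 * (m + 1) - 1 - 1))) (m + 1) := by
      apply tot_succ G _ (m + 1) (by omega)
      · intro a t ha
        simp [G, F1, ha, not_le.2 ha]
      · intro a t ha ht hlen
        rw [sum_G a a t le_rfl ha.le ht, hlen]; ring
    rw [h, tot_add, tot_add, tot_mul F1, tot_mul G, tot_mul (fun _ => F0), tot_F0]
    have e : 2 * (m + 1) - 1 = 2 * m + 1 := by omega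
    have h1 := tot_F1 m
    rw [e, Nat.add_sub_cancel]
    have e2 : (2 : ℕ) ^ (m + 1) = 2 * 2 ^ m := by ring
    rw [e2]
    zify at ih h1 ⊢
    linear_combination 2 * ih + 2 * h1

lemma tot_F2 (m : ℕ) :
    2 * tot F2 (m + 1) + (20 + 6 * m) * 2 ^ m = 9 * 3 ^ m + 4 * m ^ 2 + 10 * m + 11 := by
  induction m with
  | zero => decide
  | succ m ih =>
    have h : tot F2 (m + 1 + 1) = tot (fun l a t => F2 l a t * 3 + G l a t) (m + 1) := by
      apply tot_succ F2 _ (m + 1) (by omega)
      · intro a t ha
        simp [F2, ha, not_le.2 ha]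
      · intro a t ha ht hlen
        rw [sum_F2 a a t le_rfl ha.le ht]; ring
    rw [h, tot_add, tot_mul F2]
    have h1 := tot_G m
    have e2 : (2 : ℕ) ^ (m + 1) = 2 * 2 ^ m := by ring
    have e3 : (3 : ℕ) ^ (m + 1) = 3 * 3 ^ m := by ring
    rw [e2, e3]
    zify at ih h1 ⊢
    linear_combination 3 * ih + 2 * h1

/-! ### The count -/

lemma sum_ite_eq_length (L : List (List ℕ)) (P : List ℕ → Prop) [DecidablePred P] :
    (L.map (fun x => if P x then 1 else 0)).sum = (L.filter (fun x => decide (P x))).length := by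
  induction L with
  | nil => simp
  | cons x L ih =>
    by_cases h : P x
    · rw [List.filter_cons_of_pos (by simpa using h)]
      simp only [List.map_cons, List.sum_cons, h, if_true, List.length_cons, ih]
      omega
    · rw [List.filter_cons_of_neg (by simpa using h)]
      simp only [List.map_cons, List.sum_cons, h, if_false, ih]
      omega

lemma flat_eq (r n : ℕ) : flatRuns r n =
    (((Q n).filter (fun w => decide ((leads w).Pairwise (· ≤ ·) ∧ (leads w).length = r))).toFinset :
      Set (List ℕ)) := by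
  ext w
  simp only [flatRuns, Set.mem_setOf_eq, List.coe_toFinset, List.mem_filter, mem_Q,
    decide_eq_true_eq]

lemma ncard_three (n : ℕ) : (flatRuns 3 n).ncard = tot F2 n := by
  rw [flat_eq, Set.ncard_coe_finset, List.toFinset_card_of_nodup ((nodup_Q n).filter _),
    ← sum_ite_eq_length, tot]
  apply sum_map_congr'
  intro w _
  cases w with
  | nil => simp [leads, T]
  | cons a t =>
    simp only [leads, T, F2_eq, List.length_cons]
    congr 1
    rw [eq_iff_iff]
    constructor
    · rintro ⟨h1, h2⟩; exact ⟨h1, by omega⟩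
    · rintro ⟨h1, h2⟩; exact ⟨h1, by omega⟩

/-! ### The sums -/

def I (p : ℕ) : ℕ := ∑ j ∈ Icc 2 p, p.choose j

lemma I_eq (p : ℕ) : I p + p + 1 = 2 ^ p := by
  rcases Nat.eq_zero_or_pos p with rfl | hp
  · decide
  · have h := Nat.sum_range_choose p
    rw [range_eq_Ico, sum_eq_sum_Ico_succ_bot (by omega), sum_eq_sum_Ico_succ_bot (by omega)] at h
    have e : Ico (0 + 1 + 1) (p + 1) = Icc 2 p := by
      ext x; simp only [mem_Ico, mem_Icc]; omega
    rw [e] at h
    simp only [Nat.choose_zero_right, zero_add, Nat.choose_one_right] at h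
    rw [I]
    omega

lemma sum_two_pow (m : ℕ) : ∑ k ∈ range (m + 1), m.choose k * 2 ^ (m - k) = 3 ^ m := by
  have h := add_pow (1 : ℕ) 2 m
  norm_num at h
  rw [h]
  apply sum_congr rfl
  intro k _
  ring

lemma sum_two_pow' (m : ℕ) : ∑ k ∈ range (m + 1), m.choose k * 2 ^ k = 3 ^ m := by
  have h := add_pow (2 : ℕ) 1 m
  norm_num at h
  rw [h]
  apply sum_congr rfl
  intro k _
  ring

lemma sum_sub (m : ℕ) : 2 * ∑ k ∈ range (m + 1), m.choose k * (m - k) = m * 2 ^ m := by
  cases m with
  | zero => simp
  | succ p =>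
    have : ∑ k ∈ range (p + 1 + 1), (p + 1).choose k * (p + 1 - k) =
        ∑ k ∈ range (p + 1 + 1), p.choose k * (p + 1) := by
      apply sum_congr rfl
      intro k _
      rw [Nat.choose_mul_succ_eq]
    rw [this, sum_range_succ, Nat.choose_succ_self, ← sum_mul, Nat.sum_range_choose]
    ring

lemma sum_A (m : ℕ) :
    2 * ∑ k ∈ range (m + 1), m.choose k * I (m - k) + (m + 2) * 2 ^ m = 2 * 3 ^ m := by
  rw [← sum_two_pow m]
  have h1 := sum_sub m
  have h2 := Nat.sum_range_choose m
  have h3 : ∑ k ∈ range (m + 1), m.choose k * 2 ^ (m - k) =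
      ∑ k ∈ range (m + 1), m.choose k * I (m - k) + ∑ k ∈ range (m + 1), m.choose k * (m - k) +
        ∑ k ∈ range (m + 1), m.choose k := by
    rw [← sum_add_distrib, ← sum_add_distrib]
    apply sum_congr rfl
    intro k _
    rw [← I_eq (m - k)]; ring
  rw [h3, h2, mul_add, mul_add, h1]
  ring

lemma dbl_eq (s m : ℕ) : dbl s (m + 1) = ∑ k ∈ Ico s (m + 1), m.choose k * I (m - k) := by
  rw [dbl, Nat.add_sub_cancel]
  apply sum_congr
  · ext x; simp only [mem_Icc, mem_Ico]; omega
  · intro k _; rfl

lemma dbl_one (m : ℕ) :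
    2 * dbl 1 (m + 1) + (m + 4) * 2 ^ m = 2 * 3 ^ m + 2 * m + 2 := by
  have h := sum_A m
  rw [range_eq_Ico, sum_eq_sum_Ico_succ_bot (by omega), Nat.choose_zero_right, Nat.sub_zero,
    zero_add, ← dbl_eq] at h
  have h1 := I_eq m
  zify at h h1 ⊢
  linear_combination h - 2 * h1

lemma dbl_two (m : ℕ) :
    dbl 1 (m + 1) + m ^ 2 = dbl 2 (m + 1) + m * (2 ^ m / 2) := by
  cases m with
  | zero => decide
  | succ p =>
    rw [dbl_eq, dbl_eq, sum_eq_sum_Ico_succ_bot (by omega), Nat.choose_one_right,
      Nat.add_sub_cancel]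
    have h1 := I_eq p
    have h2 : 2 ^ (p + 1) / 2 = 2 ^ p := by rw [pow_succ]; omega
    rw [h2, ← h1]
    ring

lemma dbl_two' (m : ℕ) :
    2 * dbl 2 (m + 1) + (2 * m + 4) * 2 ^ m = 2 * 3 ^ m + 2 * m ^ 2 + 2 * m + 2 := by
  have h1 := dbl_one m
  have h2 := dbl_two m
  have h3 : 2 * (m * (2 ^ m / 2)) = m * 2 ^ m := by
    cases m with
    | zero => simp
    | succ p =>
      have h2 : 2 ^ (p + 1) / 2 = 2 ^ p := by rw [pow_succ]; omega
      rw [h2]; ring
  zify at h1 h2 h3 ⊢
  linear_combination h1 - 2 * h2 - h3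

lemma sgl_eq (m : ℕ) : 2 * sgl (m + 1) + 4 * 2 ^ m = 3 ^ m + 2 * m + 3 := by
  rcases Nat.lt_or_ge m 3 with hm | hm
  · interval_cases m <;> decide
  · have h1 := sum_two_pow' m
    have h2 := Nat.sum_range_choose m
    rw [range_eq_Ico, sum_eq_sum_Ico_succ_bot (by omega), sum_eq_sum_Ico_succ_bot (by omega),
      sum_eq_sum_Ico_succ_bot (by omega)] at h1 h2
    have e : Ico (0 + 1 + 1 + 1) (m + 1) = Icc 3 m := by
      ext x; simp only [mem_Ico, mem_Icc]; omega
    rw [e] at h1 h2
    have h3 : ∑ k ∈ Icc 3 m, m.choose k * 2 ^ k =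
        2 * sgl (m + 1) + 4 * ∑ k ∈ Icc 3 m, m.choose k := by
      rw [sgl, Nat.add_sub_cancel, mul_sum, mul_sum, ← sum_add_distrib]
      apply sum_congr rfl
      intro k hk
      rw [mem_Icc] at hk
      obtain ⟨j, rfl⟩ : ∃ j, k = j + 3 := ⟨k - 3, by omega⟩
      have e1 : j + 3 - 1 = j + 2 := by omega
      have e2 : 2 ^ (j + 2) = 2 + (2 ^ (j + 2) - 2) := by
        have : 2 ≤ 2 ^ (j + 2) := by
          calc 2 = 2 ^ 1 := rfl
            _ ≤ 2 ^ (j + 2) := Nat.pow_le_pow_right (by norm_num) (by omega)
        omega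
      rw [e1]
      have e3 : (2 : ℕ) ^ (j + 3) = 2 * 2 ^ (j + 2) := by ring
      rw [e3]
      conv_lhs => rw [e2]
      ring
    simp only [Nat.choose_zero_right, zero_add, Nat.choose_one_right, pow_zero, one_mul] at h1 h2
    norm_num at h1 h2
    zify at h1 h2 h3 ⊢
    linear_combination h1 - 4 * h2 - h3

lemma dbl_pos (n : ℕ) (hn : 5 ≤ n) : 0 < dbl 2 n := by
  rw [dbl]
  apply sum_pos'
  · intro k _; exact Nat.zero_le _
  · refine ⟨2, mem_Icc.2 ⟨le_rfl, by omega⟩, ?_⟩
    apply Nat.mul_pos (Nat.choose_pos (by omega))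
    apply sum_pos'
    · intro k _; exact Nat.zero_le _
    · exact ⟨2, mem_Icc.2 ⟨le_rfl, by omega⟩, Nat.choose_pos (by omega)⟩

lemma dbl_zero (n : ℕ) (hn : n ≤ 4) : dbl 2 n = 0 := by
  interval_cases n <;> decide

/-- For every `n ≥ 1` the number of flattened Stirling permutations of order `n` with exactly three
runs is `2 D₁ + 2 D₂ + S`, where `D₁ = ∑_{k=1}^{n-1} C(n-1,k) ∑_{j=2}^{n-1-k} C(n-1-k,j)`, `D₂` is the
same sum with `k` starting at `2`, and `S = ∑_{k=3}^{n-1} (2^{k-1}-2) C(n-1,k)`; equivalently it is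
given by a closed form. It equals `2 D₁ + D₂ + S` exactly for `n ≤ 4`. -/
theorem result (n : ℕ) (hn : 1 ≤ n) :
    (flatRuns 3 n).Finite ∧
    (flatRuns 3 n).ncard = 2 * dbl 1 n + 2 * dbl 2 n + sgl n ∧
    2 * (flatRuns 3 n).ncard + (6 * n + 14) * 2 ^ (n - 1) = 3 ^ (n + 1) + 4 * n ^ 2 + 2 * n + 5 ∧
    ((flatRuns 3 n).ncard = 2 * dbl 1 n + dbl 2 n + sgl n ↔ n ≤ 4) := by
  have hfin : (flatRuns 3 n).Finite := by
    rw [flat_eq]; exact Finset.finite_toSet _
  have hmain : (flatRuns 3 n).ncard = 2 * dbl 1 n + 2 * dbl 2 n + sgl n := by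
    obtain ⟨m, rfl⟩ : ∃ m, n = m + 1 := ⟨n - 1, by omega⟩
    rw [ncard_three]
    have h1 := tot_F2 m
    have h2 := dbl_one m
    have h3 := dbl_two' m
    have h4 := sgl_eq m
    have h5 : 2 * tot F2 (m + 1) = 2 * (2 * dbl 1 (m + 1) + 2 * dbl 2 (m + 1) + sgl (m + 1)) := by
      zify at h1 h2 h3 h4 ⊢
      linear_combination h1 - 2 * h2 - 2 * h3 - h4
    omega
  refine ⟨hfin, hmain, ?_, ?_⟩
  · obtain ⟨m, rfl⟩ : ∃ m, n = m + 1 := ⟨n - 1, by omega⟩
    rw [ncard_three, Nat.add_sub_cancel]
    have h1 := tot_F2 m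
    have e : (3 : ℕ) ^ (m + 1 + 1) = 9 * 3 ^ m := by ring
    rw [e]
    zify at h1 ⊢
    linear_combination h1
  · rw [hmain]
    constructor
    · intro h
      by_contra h5
      have := dbl_pos n (by omega)
      omega
    · intro h
      have := dbl_zero n h
      omega

end Pool.Agent.Results.MP_793dac_co.ThreeRuns
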